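import Mathlib

set_option autoImplicit false

namespace Pool.Agent.Results.MP_222d4b_co.Full

open Polynomial

/-- The Lights Out matrix of the `n × n` grid over `𝔽₂`. -/
def A (n : ℕ) : Matrix (Fin n × Fin n) (Fin n × Fin n) (ZMod 2) := fun c c' =>
  if c = c' ∨ (c.1 = c'.1 ∧ (c.2.val + 1 = c'.2.val ∨ c'.2.val + 1 = c.2.val)) ∨
      (c.2 = c'.2 ∧ (c.1.val + 1 = c'.1.val ∨ c'.1.val + 1 = c.1.val)) then 1 else 0

/-- The nullity of the grid. -/
noncomputable def d (n : ℕ) : ℕ := Module.finrank (ZMod 2) (LinearMap.ker (A n).mulVecLin)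

/-- Fibonacci polynomials evaluated at `t`. -/
def fb {K : Type} [CommRing K] (t : K) : ℕ → K
  | 0 => 0
  | 1 => 1
  | n + 2 => t * fb t (n + 1) + fb t n

section Ring
variable {K : Type} [CommRing K]

lemma fb_map {K' : Type} [CommRing K'] (φ : K →+* K') (t : K) :
    ∀ n, φ (fb t n) = fb (φ t) n
  | 0 => by simp [fb]
  | 1 => by simp [fb]
  | n + 2 => by simp [fb, fb_map φ t (n + 1), fb_map φ t n]

lemma fb_double (h2 : (2 : K) = 0) (t : K) (s : ℕ) :
    fb t (2 * s) = t * fb t s ^ 2 ∧ fb t (2 * s + 1) = fb t s ^ 2 + fb t (s + 1) ^ 2 := by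
  induction s with
  | zero => simp [fb]
  | succ s ih =>
    have e1 : fb t (2 * (s + 1)) = t * fb t (2 * s + 1) + fb t (2 * s) := rfl
    have e2 : fb t (2 * (s + 1) + 1) = t * fb t (2 * (s + 1)) + fb t (2 * s + 1) := rfl
    have e3 : fb t (s + 1 + 1) = t * fb t (s + 1) + fb t s := rfl
    have h1 : fb t (2 * (s + 1)) = t * fb t (s + 1) ^ 2 := by
      rw [e1, ih.1, ih.2]; linear_combination (t * fb t s ^ 2) * h2
    refine ⟨h1, ?_⟩
    rw [e2, h1, ih.2, e3]
    linear_combination (-t * fb t (s + 1) * fb t s) * h2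

lemma fb_zero_odd (s : ℕ) : fb (0 : K) (2 * s + 1) = 1 := by
  induction s with
  | zero => rfl
  | succ s ih =>
    have e2 : fb (0 : K) (2 * (s + 1) + 1) = 0 * fb 0 (2 * (s + 1)) + fb 0 (2 * s + 1) := rfl
    rw [e2, ih]; simp

lemma fb_root (h2 : (2 : K) = 0) (a b : K) (hab : a * b = 1) :
    ∀ n, (a + b) * fb (a + b) n = a ^ n + b ^ n
  | 0 => by simp [fb]; linear_combination -h2
  | 1 => by simp [fb]
  | n + 2 => by
    have h1 := fb_root h2 a b hab (n + 1)
    have h0 := fb_root h2 a b hab n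
    simp only [fb]
    linear_combination (a + b) * h1 + h0 + (a ^ n + b ^ n) * hab + (a ^ n + b ^ n) * h2

lemma sum_shift (h2 : (2 : K) = 0) (t : K) (a : ℕ → K) (h0 : a 0 = 0) (N : ℕ) :
    t * ∑ j ∈ Finset.range (N + 1), a j * fb t j =
      ∑ j ∈ Finset.range (N + 1), (a (j - 1) + a (j + 1)) * fb t j +
        a N * fb t (N + 1) + a (N + 1) * fb t N := by
  induction N with
  | zero => simp [fb, h0]
  | succ N ih =>
    rw [Finset.sum_range_succ _ (N + 1), Finset.sum_range_succ _ (N + 1), mul_add, ih]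
    have e3 : fb t (N + 1 + 1) = t * fb t (N + 1) + fb t N := rfl
    rw [e3, Nat.add_sub_cancel]
    linear_combination (-a (N + 1 + 1) * fb t (N + 1)) * h2

end Ring

lemma four_pow (j : ℕ) : ∃ c, 2 ^ (2 * 3 ^ j) = 1 + 3 ^ (j + 1) * c ∧ c % 3 = 1 := by
  induction j with
  | zero => exact ⟨1, by norm_num, rfl⟩
  | succ j ih =>
    obtain ⟨c, hc, hc'⟩ := ih
    refine ⟨c + 3 * (3 ^ j * c ^ 2 + 3 ^ (2 * j) * c ^ 3), ?_, by omega⟩
    have : 2 ^ (2 * 3 ^ (j + 1)) = (2 ^ (2 * 3 ^ j)) ^ 3 := by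
      rw [← pow_mul]; congr 1; ring
    rw [this, hc]; ring

section Field
variable {K : Type} [Field K]

lemma frob (h2 : (2 : K) = 0) (a b c e : K) (h : a + b + c + e + 1 = 0) (n : ℕ) :
    a ^ 2 ^ n + b ^ 2 ^ n + c ^ 2 ^ n + e ^ 2 ^ n + 1 = 0 := by
  induction n with
  | zero => simpa using h
  | succ n ih =>
    simp only [pow_succ, pow_mul]
    set x := a ^ 2 ^ n
    set y := b ^ 2 ^ n
    set z := c ^ 2 ^ n
    set w := e ^ 2 ^ n
    linear_combination (x + y + z + w + 1) * ih -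
      (x * y + x * z + x * w + x + y * z + y * w + y + z * w + z + w) * h2

lemma trace (h2 : (2 : K) = 0) (j q c : ℕ) (hq : q = 1 + 3 ^ (j + 1) * c) (hc : c % 3 = 1)
    (z : K) (hz : z ^ 3 ^ (j + 2) = 1) :
    (z ^ 3 ^ (j + 1) = 1 → z + z ^ q + (z ^ q) ^ q = z) ∧
    (z ^ 3 ^ (j + 1) ≠ 1 → z + z ^ q + (z ^ q) ^ q = 0) := by
  set u := z ^ 3 ^ (j + 1) with hu
  have hu3 : u ^ 3 = 1 := by rw [hu, ← pow_mul, ← pow_succ]; exact hz
  have huc : u ^ c = u := by
    obtain ⟨c', rfl⟩ : ∃ c', c = 3 * c' + 1 := ⟨c / 3, by omega⟩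
    rw [pow_succ, pow_mul, hu3]; simp
  have h1 : z ^ q = z * u := by
    rw [hq, pow_add, pow_mul, ← hu, huc, pow_one]
  have huq : u ^ q = u := by
    rw [hq, pow_add, pow_succ 3, mul_comm (3 ^ j) 3, mul_assoc, pow_mul, hu3]; simp
  have h3 : (z ^ q) ^ q = z * u * u := by
    rw [h1, mul_pow, h1, huq]
  rw [h3, h1]
  constructor
  · intro h
    rw [h]; linear_combination z * h2
  · intro h
    have : u ^ 2 + u + 1 = 0 := by
      have h4 : (u - 1) * (u ^ 2 + u + 1) = 0 := by linear_combination hu3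
      exact (mul_eq_zero.1 h4).resolve_left (sub_ne_zero.2 h)
    linear_combination z * this

lemma no_rel (h2 : (2 : K) = 0) (k : ℕ) : ∀ a b c e : K, a * b = 1 → c * e = 1 →
    a ^ 3 ^ (k + 1) = 1 → c ^ 3 ^ (k + 1) = 1 → a + b ≠ 0 → c + e ≠ 0 →
    a + b + c + e + 1 = 0 → False := by
  have inv : ∀ (a b : K) (N : ℕ), a * b = 1 → (b ^ N = 1 ↔ a ^ N = 1) := by
    intro a b N hab
    have : a ^ N * b ^ N = 1 := by rw [← mul_pow, hab, one_pow]
    constructor
    · intro h; rwa [h, mul_one] at this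
    · intro h; rwa [h, one_mul] at this
  induction k with
  | zero =>
    intro a b c e hab hce ha hc ha' hc' h
    have key : ∀ a b : K, a * b = 1 → a ^ 3 ^ (0 + 1) = 1 → a + b ≠ 0 → a + b = 1 := by
      intro a b hab ha ha'
      have ha3 : a ^ 3 = 1 := by simpa using ha
      have hb : b = a ^ 2 := by linear_combination (-b) * ha3 + a ^ 2 * hab
      have hne : a - 1 ≠ 0 := by
        intro h
        apply ha'
        have : a = 1 := by linear_combination h
        rw [hb, this]; linear_combination h2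
      have h4 : (a - 1) * (a ^ 2 + a + 1) = 0 := by linear_combination ha3
      have := (mul_eq_zero.1 h4).resolve_left hne
      rw [hb]; linear_combination this - h2
    have h1 := key a b hab ha ha'
    have h3 := key c e hce hc hc'
    have : (1 : K) = 0 := by linear_combination h - h1 - h3 - h2
    exact one_ne_zero this
  | succ k ih =>
    intro a b c e hab hce ha hc ha' hc' h
    obtain ⟨m, hm, hm'⟩ := four_pow k
    have r1 := frob h2 a b c e h (2 * 3 ^ k)
    have r2 := frob h2 _ _ _ _ r1 (2 * 3 ^ k)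
    have ta := trace h2 k _ m hm hm' a ha
    have tb := trace h2 k _ m hm hm' b ((inv a b _ hab).2 ha)
    have tc := trace h2 k _ m hm hm' c hc
    have te := trace h2 k _ m hm hm' e ((inv c e _ hce).2 hc)
    rw [inv a b _ hab] at tb
    rw [Ne, inv a b _ hab] at tb
    rw [inv c e _ hce] at te
    rw [Ne, inv c e _ hce] at te
    by_cases h1 : a ^ 3 ^ (k + 1) = 1 <;> by_cases h3 : c ^ 3 ^ (k + 1) = 1
    · exact ih a b c e hab hce h1 h3 ha' hc' h
    · apply hc'
      linear_combination -r1 - r2 + ta.1 h1 + tb.1 h1 + tc.2 h3 + te.2 h3 + h2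
    · apply ha'
      linear_combination -r1 - r2 + ta.2 h1 + tb.2 h1 + tc.1 h3 + te.1 h3 + h2
    · have : (1 : K) = 0 := by
        linear_combination h + r1 + r2 - ta.2 h1 - tb.2 h1 - tc.2 h3 - te.2 h3 - h2
      exact one_ne_zero this

lemma param [IsAlgClosed K] (h2 : (2 : K) = 0) (s : ℕ) (α : K) (h : fb α (2 * s + 1) = 0) :
    ∃ a b : K, a * b = 1 ∧ a + b = α ∧ a ^ (2 * s + 1) = 1 ∧ a + b ≠ 0 := by
  obtain ⟨a, ha⟩ := IsAlgClosed.exists_root (X ^ 2 + (C (-α) * X + 1) : K[X]) (by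
    have : (X ^ 2 + (C (-α) * X + 1) : K[X]).degree = 2 := by compute_degree!
    rw [this]; decide)
  have ha' : a ^ 2 - α * a + 1 = 0 := by
    have := ha.eq_zero
    simp at this
    linear_combination this
  have hab : a * (α - a) = 1 := by linear_combination -ha'
  have hs : a + (α - a) = α := by ring
  refine ⟨a, α - a, hab, hs, ?_, ?_⟩
  · have h1 := fb_root h2 a (α - a) hab (2 * s + 1)
    rw [hs, h, mul_zero] at h1
    have h3 : a ^ (2 * s + 1) * (α - a) ^ (2 * s + 1) = 1 := by rw [← mul_pow, hab, one_pow]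
    have h4 : (a ^ (2 * s + 1) - 1) ^ 2 = 0 := by
      linear_combination (-a ^ (2 * s + 1)) * h1 - h3 + (-a ^ (2 * s + 1)) * h2
    exact sub_eq_zero.1 (pow_eq_zero_iff (by norm_num) |>.1 h4)
  · rw [hs]
    rintro rfl
    rw [fb_zero_odd] at h
    exact one_ne_zero h

end Field

lemma two_poly : (2 : (ZMod 2)[X]) = 0 := by
  have : ((2 : ℕ) : (ZMod 2)[X]) = 0 := CharP.cast_eq_zero _ 2
  exact_mod_cast this

lemma coprime (k : ℕ) :
    IsCoprime (fb (X : (ZMod 2)[X]) (3 ^ (k + 1))) (fb (X + 1 : (ZMod 2)[X]) (3 ^ (k + 1))) := by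
  rw [Polynomial.isCoprime_iff_aeval_ne_zero_of_isAlgClosed (ZMod 2)
    (AlgebraicClosure (ZMod 2))]
  intro α
  by_contra hc
  push Not at hc
  obtain ⟨h1, h3⟩ := hc
  have h2 : (2 : AlgebraicClosure (ZMod 2)) = 0 := by
    have : ((2 : ℕ) : AlgebraicClosure (ZMod 2)) = 0 := CharP.cast_eq_zero _ 2
    exact_mod_cast this
  have e1 := fb_map (aeval α : (ZMod 2)[X] →ₐ[ZMod 2] _).toRingHom X (3 ^ (k + 1))
  have e2 := fb_map (aeval α : (ZMod 2)[X] →ₐ[ZMod 2] _).toRingHom (X + 1) (3 ^ (k + 1))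
  simp only [AlgHom.toRingHom_eq_coe, RingHom.coe_coe, aeval_X, map_add, map_one] at e1 e2
  rw [h1] at e1
  rw [h3] at e2
  obtain ⟨s, hs⟩ : Odd (3 ^ (k + 1)) := Odd.pow (by decide)
  obtain ⟨a, b, hab, hs1, ha, ha'⟩ := param h2 s α (hs ▸ e1.symm)
  obtain ⟨c, e, hce, hs2, hc, hc'⟩ := param h2 s (α + 1) (hs ▸ e2.symm)
  exact no_rel h2 k a b c e hab hce (hs ▸ ha) (hs ▸ hc) ha' hc'
    (by linear_combination hs1 + hs2 + (α + 1) * h2)

lemma fb_coeff (j : ℕ) : (∀ i, j ≤ i → (fb (X : (ZMod 2)[X]) j).coeff i = 0) ∧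
    (∀ i, j + 1 ≤ i → (fb (X : (ZMod 2)[X]) (j + 1)).coeff i = 0) ∧
    (fb (X : (ZMod 2)[X]) (j + 1)).coeff j = 1 := by
  induction j with
  | zero =>
    refine ⟨fun i _ => by simp [fb], fun i hi => ?_, by simp [fb]⟩
    simp only [fb]
    rw [coeff_one, if_neg (by omega)]
  | succ j ih =>
    obtain ⟨h1, h2, h3⟩ := ih
    have e3 : fb (X : (ZMod 2)[X]) (j + 1 + 1) = X * fb X (j + 1) + fb X j := rfl
    refine ⟨h2, fun i hi => ?_, ?_⟩
    · obtain ⟨i, rfl⟩ : ∃ i', i = i' + 1 := ⟨i - 1, by omega⟩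
      rw [e3, coeff_add, coeff_X_mul, h2 i (by omega), h1 _ (by omega), add_zero]
    · rw [e3, coeff_add, coeff_X_mul, h3, h1 _ (by omega), add_zero]

lemma sum_coeff (a : ℕ → ZMod 2) (N i : ℕ) (hi : N ≤ i + 1) :
    (∑ j ∈ Finset.range N, C (a j) * fb (X : (ZMod 2)[X]) j).coeff i = 0 := by
  rw [finsetSum_coeff]
  refine Finset.sum_eq_zero fun j hj => ?_
  rw [coeff_C_mul, (fb_coeff j).1 i (by have := Finset.mem_range.1 hj; omega), mul_zero]

lemma tri (a : ℕ → ZMod 2) (N : ℕ)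
    (h : ∑ j ∈ Finset.range (N + 1), C (a j) * fb (X : (ZMod 2)[X]) j = 0) :
    ∀ j, 1 ≤ j → j ≤ N → a j = 0 := by
  induction N with
  | zero => intro j h1 h2; omega
  | succ N ih =>
    rw [Finset.sum_range_succ] at h
    have h1 : a (N + 1) = 0 := by
      have := congrArg (fun p => p.coeff N) h
      simp only [coeff_add, coeff_zero] at this
      rwa [sum_coeff a _ _ le_rfl, coeff_C_mul, (fb_coeff N).2.2, zero_add, mul_one] at this
    rw [h1, C_0, zero_mul, add_zero] at h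
    intro j hj1 hj2
    rcases Nat.lt_or_ge N j with h3 | h3
    · have : j = N + 1 := by omega
      rw [this, h1]
    · exact ih h j hj1 h3

lemma dvd_zero (n : ℕ) (p : (ZMod 2)[X]) (hp : ∀ i, n ≤ i → p.coeff i = 0)
    (h : fb (X : (ZMod 2)[X]) (n + 1) ∣ p) : p = 0 := by
  refine eq_zero_of_dvd_of_degree_lt h ?_
  have h1 : p.degree < n := (degree_lt_iff_coeff_zero p n).2 hp
  have h2 : (n : WithBot ℕ) ≤ (fb (X : (ZMod 2)[X]) (n + 1)).degree :=
    le_degree_of_ne_zero (by rw [(fb_coeff n).2.2]; exact one_ne_zero)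
  exact lt_of_lt_of_le h1 h2

lemma upper (k n : ℕ) (hn : n + 1 = 2 * 3 ^ (k + 1)) (Y : ℕ → ℕ → ZMod 2)
    (b1 : ∀ j, Y 0 j = 0) (b2 : ∀ j, Y (n + 1) j = 0) (b3 : ∀ i, Y i 0 = 0)
    (b4 : ∀ i, Y i (n + 1) = 0)
    (hY : ∀ i j, i < n → j < n →
      Y (i + 1) (j + 1) + Y i (j + 1) + Y (i + 2) (j + 1) + Y (i + 1) j + Y (i + 1) (j + 2) = 0)
    (z1 : Y 1 n = 0) (z2 : Y 1 (n - 1) = 0) :
    ∀ i j, i < n → j < n → Y (i + 1) (j + 1) = 0 := by
  have hn5 : 5 ≤ n := by
    have : 3 ^ 1 ≤ 3 ^ (k + 1) := Nat.pow_le_pow_right (by norm_num) (by omega)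
    omega
  set F : (ZMod 2)[X] := fb X (n + 1) with hF
  let R : ℕ → (ZMod 2)[X] := fun i => ∑ j ∈ Finset.range (n + 1), C (Y i j) * fb X j
  have step : ∀ i, i < n → F ∣ R (i + 2) - ((X + 1) * R (i + 1) + R i) := by
    intro i hi
    have h1 := sum_shift two_poly X (fun j => C (Y (i + 1) j)) (by simp [b3]) n
    simp only [b4, C_0, zero_mul, add_zero] at h1
    have h2 : ∑ j ∈ Finset.range (n + 1), (C (Y (i + 1) (j - 1)) + C (Y (i + 1) (j + 1))) * fb X j
        = R (i + 1) + R i + R (i + 2) := by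
      simp only [R, ← Finset.sum_add_distrib]
      refine Finset.sum_congr rfl fun j hj => ?_
      rcases j with _ | j
      · simp [fb]
      · have h3 := hY i j hi (by have := Finset.mem_range.1 hj; omega)
        have h4 : Y (i + 1) (j + 1 - 1) + Y (i + 1) (j + 1 + 1) =
            Y (i + 1) (j + 1) + Y i (j + 1) + Y (i + 2) (j + 1) := by
          have h5 : (2 : ZMod 2) = 0 := rfl
          rw [Nat.add_sub_cancel]
          linear_combination h3 - (Y (i + 1) (j + 1) + Y i (j + 1) + Y (i + 2) (j + 1)) * h5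
        rw [← C_add, h4, C_add, C_add]; ring
    rw [h2] at h1
    refine ⟨-C (Y (i + 1) n), ?_⟩
    have h6 : X * R (i + 1) = R (i + 1) + R i + R (i + 2) + C (Y (i + 1) n) * F := h1
    linear_combination -h6 - (R (i + 1) + R i) * two_poly
  have R0 : R 0 = 0 := by simp [R, b1]
  have Rn : R (n + 1) = 0 := by simp [R, b2]
  have main : ∀ i, i ≤ n → F ∣ R i - fb (X + 1) i * R 1 ∧
      F ∣ R (i + 1) - fb (X + 1) (i + 1) * R 1 := by
    intro i
    induction i with
    | zero => intro _; simp [fb, R0]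
    | succ i ih =>
      intro hi
      obtain ⟨h1, h2⟩ := ih (by omega)
      refine ⟨h2, ?_⟩
      have h3 := step i (by omega)
      have e3 : fb (X + 1 : (ZMod 2)[X]) (i + 1 + 1) =
        (X + 1) * fb (X + 1) (i + 1) + fb (X + 1) i := rfl
      have := (h3.add (h2.mul_left (X + 1))).add h1
      convert this using 1
      rw [e3]; ring
  have h1 : F ∣ fb (X + 1) (n + 1) * R 1 := by
    have := (main n le_rfl).2
    rw [Rn, zero_sub] at this
    exact dvd_neg.1 this
  have h2 : F ∣ X * (X + 1) * R 1 := by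
    obtain ⟨u, v, huv⟩ := (coprime k).pow (m := 2) (n := 2)
    have f1 : F = X * fb X (3 ^ (k + 1)) ^ 2 := by
      rw [hF, hn]; exact (fb_double two_poly _ _).1
    have f2 : fb (X + 1 : (ZMod 2)[X]) (n + 1) = (X + 1) * fb (X + 1) (3 ^ (k + 1)) ^ 2 := by
      rw [hn]; exact (fb_double two_poly _ _).1
    have : X * (X + 1) * R 1 =
        F * (u * (X + 1) * R 1) + (v * X) * (fb (X + 1) (n + 1) * R 1) := by
      rw [f1, f2]; linear_combination (-X * (X + 1) * R 1) * huv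
    rw [this]
    exact (dvd_mul_right _ _).add (h1.mul_left _)
  have h3 : ∀ i, n - 2 ≤ i → (R 1).coeff i = 0 := by
    intro i hi
    have : R 1 = ∑ j ∈ Finset.range (n - 1), C (Y 1 j) * fb X j := by
      obtain ⟨m, rfl⟩ : ∃ m, n = m + 1 := ⟨n - 1, by omega⟩
      simp only [R]
      rw [Finset.sum_range_succ, Finset.sum_range_succ, z1]
      rw [Nat.add_sub_cancel] at z2 ⊢
      rw [z2]; simp
    rw [this]
    exact sum_coeff _ _ _ (by omega)
  have h4 : X * (X + 1) * R 1 = 0 := by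
    refine dvd_zero n _ (fun i hi => ?_) h2
    obtain ⟨i, rfl⟩ : ∃ i', i = i' + 2 := ⟨i - 2, by omega⟩
    have : X * (X + 1) * R 1 = X * (X * R 1) + X * R 1 := by ring
    rw [this, coeff_add, coeff_X_mul, coeff_X_mul, coeff_X_mul, h3 _ (by omega), h3 _ (by omega),
      add_zero]
  have h5 : R 1 = 0 := by
    have hx : (X * (X + 1) : (ZMod 2)[X]) ≠ 0 := by
      refine mul_ne_zero X_ne_zero ?_
      have := X_add_C_ne_zero (1 : ZMod 2)
      simpa using this
    exact (mul_eq_zero.1 h4).resolve_left hx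
  intro i j hi hj
  have h6 := (main i hi.le).2
  rw [h5, mul_zero, sub_zero] at h6
  have h7 := dvd_zero n _ (fun i' hi' => sum_coeff _ _ _ (by omega)) h6
  exact tri _ n h7 (j + 1) (by omega) (by omega)

/-- Zero-padded array of a vector. -/
def pad {n : ℕ} (x : Fin n × Fin n → ZMod 2) (a b : ℕ) : ZMod 2 :=
  ∑ c : Fin n × Fin n, if c.1.val + 1 = a ∧ c.2.val + 1 = b then x c else 0

lemma pad_in {n : ℕ} (x : Fin n × Fin n → ZMod 2) (c : Fin n × Fin n) :
    pad x (c.1.val + 1) (c.2.val + 1) = x c := by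
  unfold pad
  rw [Finset.sum_eq_single c]
  · simp
  · intro c' _ hne
    rw [if_neg]
    rintro ⟨h1, h2⟩
    exact hne (Prod.ext (Fin.ext (by omega)) (Fin.ext (by omega)))
  · simp

lemma pad_out {n : ℕ} (x : Fin n × Fin n → ZMod 2) (a b : ℕ)
    (h : a = 0 ∨ b = 0 ∨ a = n + 1 ∨ b = n + 1) : pad x a b = 0 := by
  unfold pad
  refine Finset.sum_eq_zero fun c _ => ?_
  rw [if_neg]
  have := c.1.isLt
  have := c.2.isLt
  omega

lemma mulVec_eq {n : ℕ} (x : Fin n × Fin n → ZMod 2) (c : Fin n × Fin n) :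
    (A n).mulVec x c = pad x (c.1.val + 1) (c.2.val + 1) + pad x c.1.val (c.2.val + 1) +
      pad x (c.1.val + 2) (c.2.val + 1) + pad x (c.1.val + 1) c.2.val +
      pad x (c.1.val + 1) (c.2.val + 2) := by
  unfold pad
  simp only [Matrix.mulVec, dotProduct, ← Finset.sum_add_distrib]
  refine Finset.sum_congr rfl fun c' _ => ?_
  simp only [A, Prod.ext_iff, Fin.ext_iff]
  split_ifs <;> first | omega | simp

lemma prod_mem (n : ℕ) (u w : ℕ → ZMod 2) (u0 : u 0 = 0) (w0 : w 0 = 0) (u1 : u (n + 1) = 0)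
    (w1 : w (n + 1) = 0)
    (h : ∀ i j, u (i + 1) * w (j + 1) + u i * w (j + 1) + u (i + 2) * w (j + 1) +
      u (i + 1) * w j + u (i + 1) * w (j + 2) = 0) :
    (fun c : Fin n × Fin n => u (c.1.val + 1) * w (c.2.val + 1)) ∈
      LinearMap.ker (A n).mulVecLin := by
  have key : ∀ a b, a ≤ n + 1 → b ≤ n + 1 →
      pad (fun c : Fin n × Fin n => u (c.1.val + 1) * w (c.2.val + 1)) a b = u a * w b := by
    intro a b ha hb
    by_cases h' : a = 0 ∨ b = 0 ∨ a = n + 1 ∨ b = n + 1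
    · rw [pad_out _ _ _ h']
      rcases h' with rfl | rfl | rfl | rfl <;> simp [u0, w0, u1, w1]
    · obtain ⟨a, rfl⟩ : ∃ a', a = a' + 1 := ⟨a - 1, by omega⟩
      obtain ⟨b, rfl⟩ : ∃ b', b = b' + 1 := ⟨b - 1, by omega⟩
      exact pad_in _ ((⟨a, by omega⟩ : Fin n), (⟨b, by omega⟩ : Fin n))
  rw [LinearMap.mem_ker]
  funext c
  have := c.1.isLt
  have := c.2.isLt
  rw [Matrix.mulVecLin_apply, mulVec_eq, key _ _ (by omega) (by omega),
    key _ _ (by omega) (by omega), key _ _ (by omega) (by omega), key _ _ (by omega) (by omega),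
    key _ _ (by omega) (by omega)]
  exact h _ _

/-- Period-3 pattern. -/
def u3 (a : ℕ) : ZMod 2 := if a % 3 = 0 then 0 else 1
/-- Period-2 pattern. -/
def w2 (a : ℕ) : ZMod 2 := if a % 2 = 0 then 0 else 1

lemma u3_rec (i : ℕ) : u3 i + u3 (i + 1) + u3 (i + 2) = 0 := by
  unfold u3
  split_ifs <;> first | omega | decide

lemma w2_rec (i : ℕ) : w2 i + w2 (i + 2) = 0 := by
  unfold w2
  split_ifs <;> first | omega | decide

lemma d_eq (k n : ℕ) (hn : n + 1 = 2 * 3 ^ (k + 1)) : d n = 2 := by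
  have h3 : (n + 1) % 3 = 0 := by rw [hn, pow_succ]; omega
  have h2 : (n + 1) % 2 = 0 := by omega
  have hn5 : 5 ≤ n := by
    have : 3 ^ 1 ≤ 3 ^ (k + 1) := Nat.pow_le_pow_right (by norm_num) (by omega)
    omega
  let c1 : Fin n × Fin n := (⟨0, by omega⟩, ⟨n - 1, by omega⟩)
  let c2 : Fin n × Fin n := (⟨0, by omega⟩, ⟨n - 2, by omega⟩)
  let φ : LinearMap.ker (A n).mulVecLin →ₗ[ZMod 2] ZMod 2 × ZMod 2 :=
    { toFun := fun x => (x.1 c1, x.1 c2)
      map_add' := fun x y => rfl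
      map_smul' := fun a x => rfl }
  have inj : Function.Injective φ := by
    rw [← LinearMap.ker_eq_bot, LinearMap.ker_eq_bot']
    intro x hx
    have hx1 : x.1 c1 = 0 := congrArg Prod.fst hx
    have hx2 : x.1 c2 = 0 := congrArg Prod.snd hx
    have hk : (A n).mulVec x.1 = 0 := x.2
    have := upper k n hn (pad x.1) (fun j => pad_out _ _ _ (by omega))
      (fun j => pad_out _ _ _ (by omega)) (fun j => pad_out _ _ _ (by omega))
      (fun j => pad_out _ _ _ (by omega))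
      (fun i j hi hj => by
        have := mulVec_eq x.1 ((⟨i, hi⟩ : Fin n), (⟨j, hj⟩ : Fin n))
        rw [hk] at this
        exact this.symm)
      (by
        have := pad_in x.1 c1
        rw [hx1] at this
        have e : n - 1 + 1 = n := by omega
        simpa [c1, e] using this)
      (by
        have := pad_in x.1 c2
        rw [hx2] at this
        have e : n - 2 + 1 = n - 1 := by omega
        simpa [c2, e] using this)
    apply Subtype.ext
    funext c
    rw [← pad_in x.1 c]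
    exact this _ _ c.1.isLt c.2.isLt
  have m1 := prod_mem n u3 w2 rfl rfl (by simp [u3, h3]) (by simp [w2, h2]) (fun i j => by
    linear_combination w2 (j + 1) * u3_rec i + u3 (i + 1) * w2_rec j)
  have m2 := prod_mem n w2 u3 rfl rfl (by simp [w2, h2]) (by simp [u3, h3]) (fun i j => by
    linear_combination w2 (i + 1) * u3_rec j + u3 (j + 1) * w2_rec i)
  have v1 : φ ⟨_, m1⟩ = (1, 0) := by
    change (u3 (0 + 1) * w2 (n - 1 + 1), u3 (0 + 1) * w2 (n - 2 + 1)) = _
    unfold u3 w2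
    rw [if_neg (by omega), if_neg (by omega), if_pos (by omega)]; simp
  have v2 : φ ⟨_, m2⟩ = (1, 1) := by
    change (w2 (0 + 1) * u3 (n - 1 + 1), w2 (0 + 1) * u3 (n - 2 + 1)) = _
    unfold u3 w2
    rw [if_neg (by omega), if_neg (by omega), if_neg (by omega)]; simp
  have surj : Function.Surjective φ := by
    rintro ⟨a, b⟩
    refine ⟨(a - b) • ⟨_, m1⟩ + b • ⟨_, m2⟩, ?_⟩
    rw [map_add, map_smul, map_smul, v1, v2]
    simp
  unfold d
  rw [(LinearEquiv.ofBijective φ ⟨inj, surj⟩).finrank_eq]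
  simp

theorem result : (∀ k : ℕ, 1 ≤ k → d (2 * 3 ^ k - 1) = 2) ∧
    {n : ℕ | 0 < n ∧ d n = 2}.Infinite := by
  have pos : ∀ k : ℕ, 3 ≤ 3 ^ (k + 1) := fun k =>
    Nat.pow_le_pow_right (n := 3) (by norm_num) (show 1 ≤ k + 1 by omega)
  have h : ∀ k : ℕ, d (2 * 3 ^ (k + 1) - 1) = 2 := fun k =>
    d_eq k _ (by have := pos k; omega)
  refine ⟨fun k hk => ?_, ?_⟩
  · obtain ⟨k, rfl⟩ : ∃ k', k = k' + 1 := ⟨k - 1, by omega⟩
    exact h k
  · refine Set.infinite_of_injective_forall_mem (f := fun k : ℕ => 2 * 3 ^ (k + 1) - 1) ?_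
      fun k => ⟨by have := pos k; omega, h k⟩
    intro a b hab
    have h1 := pos a
    have h2 := pos b
    have h3 : 3 ^ (a + 1) = 3 ^ (b + 1) := by
      simp only at hab
      omega
    have := Nat.pow_right_injective (by norm_num : 2 ≤ 3) h3
    omega

end Pool.Agent.Results.MP_222d4b_co.Full
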